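import Pool.Agent.H95.ESL.Stmts

set_option autoImplicit false

namespace ESL
open Finset ESP

theorem pig_card (y N : ℕ) :
    Nat.primeCounting N ≤ Nat.primeCounting y + #{q ∈ Ioc y N | q.Prime} := by
  have h1 : ∀ n, Nat.primeCounting n = #{q ∈ range (n + 1) | q.Prime} := fun n => by
    rw [Nat.primeCounting, Nat.primeCounting', Nat.count_eq_card_filter_range]
  rw [h1, h1]
  refine (card_le_card ?_).trans (card_union_le _ _)
  intro q hq
  simp only [mem_filter, mem_range, mem_union, mem_Ioc] at hq ⊢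
  by_cases h : q < y + 1
  · left
    exact ⟨h, hq.2⟩
  · right
    exact ⟨⟨by omega, by omega⟩, hq.2⟩

theorem pig_bound (ε : ℝ) (hε : 0 < ε) : ∃ n₀ : ℕ, ∀ n : ℕ, n₀ ≤ n →
    (n : ℝ) + 24 * 2 ^ n <
      Nat.primeCounting ⌊Real.exp ((Real.log 2 + ε) * n)⌋₊ := by
  have hl2 : 0 < Real.log 2 := Real.log_pos (by norm_num)
  have hl2' : Real.log 2 ≤ 1 := by
    have := Real.log_le_sub_one_of_pos (show (0 : ℝ) < 2 by norm_num)
    linarith
  obtain ⟨A, hA⟩ : ∃ A, A = Real.log 2 + ε := ⟨_, rfl⟩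
  have hA0 : 0 < A := by rw [hA]; positivity
  refine ⟨⌈(2 / (ε ^ 2 * Real.log 2)) * (27 * A + 3)⌉₊ + 1, fun n hn => ?_⟩
  rw [← hA]
  have hn1 : (1 : ℝ) ≤ n := by
    have : 1 ≤ n := by omega
    exact_mod_cast this
  have hnr : (27 * A + 3) ≤ n * (ε ^ 2 * Real.log 2) / 2 := by
    have h1 : (2 / (ε ^ 2 * Real.log 2)) * (27 * A + 3) ≤ n := by
      refine (Nat.le_ceil _).trans ?_
      exact_mod_cast (by omega : ⌈(2 / (ε ^ 2 * Real.log 2)) * (27 * A + 3)⌉₊ ≤ n)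
    have h2 : 0 < ε ^ 2 * Real.log 2 := by positivity
    calc 27 * A + 3 = (2 / (ε ^ 2 * Real.log 2)) * (27 * A + 3) * (ε ^ 2 * Real.log 2) / 2 := by
          field_simp
      _ ≤ n * (ε ^ 2 * Real.log 2) / 2 := by
          have := mul_le_mul_of_nonneg_right h1 h2.le
          linarith
  obtain ⟨X, hX⟩ : ∃ X, X = Real.exp (A * n) := ⟨_, rfl⟩
  rw [← hX]
  have hAn : 0 < A * n := by positivity
  have hX1 : 1 < X := by rw [hX]; exact Real.one_lt_exp_iff.mpr hAn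
  have hlog : Real.log X = A * n := by rw [hX, Real.log_exp]
  have hpi := Chebyshev.pi_ge' hX1
  refine lt_of_lt_of_le ?_ hpi
  rw [hlog, lt_div_iff₀ hAn]
  have hXe : X = 2 ^ n * Real.exp (ε * n) := by
    rw [hX, hA, add_mul, Real.exp_add]
    congr 1
    rw [mul_comm, Real.exp_nat_mul, Real.exp_log (by norm_num)]
  have hq : (ε * n) ^ 2 / 2 ≤ Real.exp (ε * n) := by
    have := Real.quadratic_le_exp_of_nonneg (show 0 ≤ ε * n by positivity)
    nlinarith [show 0 ≤ ε * n by positivity]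
  have hlog3 : Real.log (X + 2) ≤ 2 + A * n := by
    have h3 : Real.log (X + 2) ≤ Real.log (3 * X) :=
      Real.log_le_log (by linarith) (by linarith)
    have h4 : Real.log (3 * X) = Real.log 3 + A * n := by
      rw [Real.log_mul (by norm_num) (by linarith), hlog]
    have h5 := Real.log_le_sub_one_of_pos (show (0 : ℝ) < 3 by norm_num)
    linarith
  have hn2 : (n : ℝ) ≤ 2 ^ n := by exact_mod_cast Nat.lt_two_pow_self.le
  have h2n : (2 : ℝ) ≤ 2 ^ n := by
    calc (2 : ℝ) = 2 ^ 1 := by norm_num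
      _ ≤ 2 ^ n := pow_le_pow_right₀ (by norm_num) (by exact_mod_cast hn1)
  have hXl : (2 : ℝ) ^ n * n * (27 * A + 3) ≤ X * Real.log 2 := by
    calc (2 : ℝ) ^ n * n * (27 * A + 3) ≤ 2 ^ n * n * (n * (ε ^ 2 * Real.log 2) / 2) :=
          mul_le_mul_of_nonneg_left hnr (by positivity)
      _ = 2 ^ n * ((ε * n) ^ 2 / 2) * Real.log 2 := by ring
      _ ≤ 2 ^ n * Real.exp (ε * n) * Real.log 2 :=
          mul_le_mul_of_nonneg_right (mul_le_mul_of_nonneg_left hq (by positivity)) hl2.le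
      _ = X * Real.log 2 := by rw [hXe]
  have h6 : ((n : ℝ) + 24 * 2 ^ n) * (A * n) ≤ 25 * 2 ^ n * (A * n) :=
    mul_le_mul_of_nonneg_right (by linarith) hAn.le
  have h7 : A * n ≤ 2 ^ n * (A * n) := by nlinarith
  have h8 : (2 : ℝ) ≤ 2 ^ n * n := by nlinarith
  nlinarith

theorem pig_thm : S_PIG := by
  intro ε hε
  obtain ⟨n₀, hn₀⟩ := pig_bound ε hε
  obtain ⟨y₀, hy₀⟩ := Filter.eventually_atTop.mp
    (Nat.tendsto_primeCounting.eventually_ge_atTop n₀)
  refine ⟨y₀, fun y hy => ?_⟩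
  have hb := hn₀ _ (hy₀ y hy)
  obtain ⟨N, hN⟩ : ∃ N, N = ⌊Real.exp ((Real.log 2 + ε) * Nat.primeCounting y)⌋₊ := ⟨_, rfl⟩
  rw [← hN] at hb
  have hb' : Nat.primeCounting y + 24 * 2 ^ Nat.primeCounting y < Nat.primeCounting N := by
    exact_mod_cast hb
  have hc := pig_card y N
  classical
  have hP : #{p ∈ range (y + 1) | p.Prime} = Nat.primeCounting y := by
    rw [Nat.primeCounting, Nat.primeCounting', Nat.count_eq_card_filter_range]
  obtain ⟨q₁, hq₁, q₂, hq₂, hne, heq⟩ := Finset.exists_ne_map_eq_of_card_lt_of_maps_to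
    (s := {q ∈ Ioc y N | q.Prime})
    (t := range 24 ×ˢ ({p ∈ range (y + 1) | p.Prime} : Finset ℕ).powerset)
    (by rw [card_product, card_range, card_powerset, hP]; omega)
    (f := fun q => (q % 24, {p ∈ ({p ∈ range (y + 1) | p.Prime} : Finset ℕ) |
      IsSquare ((q : ℕ) : ZMod p)}))
    (by
      intro q _
      simp only [coe_product, Set.mem_prod, mem_coe, mem_range, mem_powerset]
      exact ⟨Nat.mod_lt _ (by norm_num), filter_subset _ _⟩)
  simp only [mem_filter, mem_Ioc] at hq₁ hq₂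
  have hle : ∀ q : ℕ, q ≤ N → (q : ℝ) ≤ Real.exp ((Real.log 2 + ε) * Nat.primeCounting y) := by
    intro q hq
    have h1 : (q : ℝ) ≤ N := by exact_mod_cast hq
    refine h1.trans ?_
    rw [hN]
    exact Nat.floor_le (Real.exp_pos _).le
  have heq1 := congrArg Prod.fst heq
  have heq2 := congrArg Prod.snd heq
  dsimp only at heq1 heq2
  refine ⟨q₁, q₂, hq₁.2, hq₂.2, hne, hq₁.1.1, hq₂.1.1, hle _ hq₁.1.2, hle _ hq₂.1.2, heq1, ?_⟩
  intro p hp _ hpy
  have : Fact p.Prime := ⟨hp⟩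
  have hiff : IsSquare ((q₁ : ℕ) : ZMod p) ↔ IsSquare ((q₂ : ℕ) : ZMod p) := by
    have h1 := Finset.ext_iff.mp heq2 p
    simp only [mem_filter, mem_range] at h1
    have h2 : p < y + 1 ∧ p.Prime := ⟨by omega, hp⟩
    constructor
    · intro h
      exact (h1.mp ⟨h2, h⟩).2
    · intro h
      exact (h1.mpr ⟨h2, h⟩).2
  push_cast
  by_cases h : IsSquare ((q₁ : ℕ) : ZMod p)
  · exact h.mul (hiff.mp h)
  · have h' : ¬ IsSquare ((q₂ : ℕ) : ZMod p) := fun h2 => h (hiff.mpr h2)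
    have n1 : ((q₁ : ℕ) : ZMod p) ≠ 0 := fun h0 => h (by rw [h0]; exact IsSquare.zero)
    have n2 : ((q₂ : ℕ) : ZMod p) ≠ 0 := fun h0 => h' (by rw [h0]; exact IsSquare.zero)
    rw [← quadraticChar_one_iff_isSquare (mul_ne_zero n1 n2), map_mul,
      quadraticChar_neg_one_iff_not_isSquare.mpr h,
      quadraticChar_neg_one_iff_not_isSquare.mpr h']
    norm_num

end ESL
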